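import Pool.Agent.FPY.FIN

/-!
# MP_9085a3_al: the groups with property (F) of exponent `p` and class at most two
-/

set_option autoImplicit false

namespace Pool.Agent.Results.MP_9085a3_al.ExponentP

open FPX

/-- Let `p` be an odd prime and `P` a finite group in which `g ^ p = 1` for all `g` and whose derived
subgroup is contained in the centre.  Every subgroup of `P` is the fixed point subgroup of an
automorphism of `P` if and only if `|P'| = 1`, or `|P'| = p`, or `|P'| = p ^ 3 = |P : Z(P)|`. -/
theorem result (p : ℕ) (hp : p.Prime) (h2 : p ≠ 2) (P : Type) [Group P] [Finite P]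
    (hexp : ∀ g : P, g ^ p = 1) (hc : commutator P ≤ Subgroup.center P) :
    PF P ↔ Nat.card (commutator P) = 1 ∨ Nat.card (commutator P) = p ∨
      (Nat.card (commutator P) = p ^ 3 ∧ (Subgroup.center P).index = p ^ 3) := by
  have hc' : ∀ g h : P, g * h * g⁻¹ * h⁻¹ ∈ Subgroup.center P := fun g h =>
    hc (Subgroup.commutator_mem_commutator (Subgroup.mem_top g) (Subgroup.mem_top h))
  constructor
  · intro hF
    rcases FPY.nec hp h2 hexp hc' hF with h | h
    · rcases (Nat.dvd_prime hp).1 h with h | h
      · exact Or.inl h
      · exact Or.inr (Or.inl h)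
    · exact Or.inr (Or.inr h)
  · intro h
    refine FPY.suff_all hp h2 hexp hc' ?_
    rcases h with h | h | h
    · left
      rw [h]
      exact one_dvd p
    · left
      rw [h]
    · exact Or.inr h

end Pool.Agent.Results.MP_9085a3_al.ExponentP
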