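import Pool.Agent.FPX.Q9

/-!
# MP_9085a3_al: groups of odd prime power order with property (F) and central elements of order p
-/

set_option autoImplicit false

namespace Pool.Agent.Results.MP_9085a3_al.PCentral

open FPX

/-- Let `Q` be a finite `r`-group, `r` an odd prime, in which all elements `x` with `x ^ r = 1` are
central, and suppose that every subgroup of `Q` is the group of fixed points of an automorphism.
Then `Q` is abelian. -/
theorem result (Q : Type) [Group Q] [Finite Q] (r : ℕ) (hr : r.Prime) (h2 : r ≠ 2)
    (hQ : IsPGroup r Q) (hc : ∀ x : Q, x ^ r = 1 → ∀ g : Q, x * g = g * x)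
    (hF : ∀ H : Subgroup Q, ∃ α : MulAut Q, ∀ g : Q, α g = g ↔ g ∈ H) :
    ∀ a b : Q, a * b = b * a :=
  pc_comm hr h2 hQ hc hF

end Pool.Agent.Results.MP_9085a3_al.PCentral
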