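import Pool.Agent.FPX.F3

/-!
# MP_9085a3_al: finite groups with property (F), reduction to groups of prime power order
-/

set_option autoImplicit false

namespace Pool.Agent.Results.MP_9085a3_al.Reduction

open FPX

/-- A finite solvable group `G` has property (F) (every subgroup is the group of fixed points of an
automorphism) if and only if `G` is a direct product of finitely many groups of pairwise coprime
orders, each of which is either a `q`-group with (F) for some prime `q`, or a group
`(F_p^2 : ⟨M⟩) × A` with `p ≥ 5` prime, `M` in `SL(2,p)` of odd prime order `r ≠ p`, and `A` a finite
abelian `r`-group. -/
theorem result (G : Type) [Group G] [Finite G] [Group.IsSolvable G] : PF G ↔ Dec G :=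
  main G

end Pool.Agent.Results.MP_9085a3_al.Reduction
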