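import Pool.Agent.FPX.H14

/-!
# MP_9085a3_al: the groups with property (F) whose Sylow subgroups have small derived subgroups
-/

set_option autoImplicit false

namespace Pool.Agent.Results.MP_9085a3_al.SmallDerived

open FPX

/-- Let `G` be a finite solvable group such that for every prime `q` the derived subgroup of a Sylow
`q`-subgroup has order `1` or `q`.  Then `G` has property (F) if and only if `G` is a direct product
of finitely many groups of pairwise coprime orders, each of which is an abelian `q`-group, `q` odd, a
direct product of nontrivial cyclic `2`-groups in which no order occurs exactly once, a group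
`(F_p^2 : ⟨M⟩) × A` with `p ≥ 5` prime, `M` in `SL(2,p)` of odd prime order `r ≠ p` and `A` a finite
abelian `r`-group, or a `q`-group with derived subgroup of order `q` satisfying `Cond`. -/
theorem result (G : Type) [Group G] [Finite G] [Group.IsSolvable G]
    (hS : ∀ (q : ℕ) [Fact q.Prime] (Q : Sylow q G), Nat.card (commutator Q) ∣ q) :
    PF G ↔ DecD G :=
  main_d G hS

end Pool.Agent.Results.MP_9085a3_al.SmallDerived
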